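import Pool.Agent.Lib_helper65.PropB.Final

/-!
# MP_9a3d30_co: the growth of `m(n,s)`

`HasB s F` (property `B(s)`), `m n s`, `om n s` and `W n s` are defined in
`Pool/Agent/Lib_helper65/PropB/Defs.lean`.

We determine `m(n,s)` up to a factor polynomial in `s`, uniformly in `n ≥ s`:
`W/2 ≤ m(n,s) ≤ 30000 s^6 W` with `W = (1 + (s/n)(1 - s/n)^((n-s)/s))^n`.

* Lower bound: choose `S` at random, each vertex independently with probability
  `p = ω/(1+ω)`; `p^s (1-p)^(n-s)` times the entropy bound for the upper tail and `(1-p)^n` balance.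
* Upper bound for `n ≤ s^2`: a random family of `n`-subsets of `[16 n^2]`; the worst `S` has density
  about `p` and the hypergeometric mass at `0` and at the values `≥ s` is estimated from below.
* Upper bound for `n > s^2`: blow-up of a family with parameters `(n', s+1)`, `n' ≤ 2 s^2`.
-/

namespace Pool.Agent.Results.MP_9a3d30_co.Growth

open Pool.Agent.PropB65

/-- **Growth of `m(n,s)`** up to a factor polynomial in `s`, uniformly in `n ≥ s ≥ 2`. For
`n ≥ s^2` it is `e^(s/e)` up to a factor polynomial in `s`. -/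
theorem result (n s : ℕ) (hs2 : 2 ≤ s) (hsn : s ≤ n) :
    (W n s / 2 ≤ m n s ∧ (m n s : ℝ) ≤ 30000 * (s : ℝ) ^ 6 * W n s) ∧
    (s ^ 2 ≤ n → Real.exp (s * Real.exp (-1)) / 6 ≤ m n s ∧
      (m n s : ℝ) ≤ 30000 * (s : ℝ) ^ 6 * Real.exp (s * Real.exp (-1))) :=
  growth hs2 hsn

end Pool.Agent.Results.MP_9a3d30_co.Growth
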