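import Pool.Agent.Lib_helper36.PB.Main
import Pool.Agent.Lib_helper22.PB.Fin

/-!
# MP_9a3d30_co: `m(n,4) ≥ 15` for all `n ≥ 4`, and `m(n,4) = 15` when `8` divides `n`

`HasB s F` (property `B(s)`) and `m n s` (the least number of edges of a family of `n`-sets without
property `B(s)`) are defined in `Pool/Agent/Lib_helper65/PropB/Defs.lean`.

* Every family of `n`-sets, `n ≥ 4`, with at most `14` edges has property `B(4)`.
* If `8 ∣ n` and `n > 0`, then `m(n,4) = 15`.

Outline of the proof of the lower bound. A vertex of the family determines its *type*, the set of
the edges that contain it; the numbers of vertices of each type, divided by `n`, are weights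
`w T ≥ 0` with `∑_{T ∋ i} w T = 1` for each edge `i`, and a set of types of positive weight cannot
cover every edge one, two or three times. Weights of least total weight are supported on pairwise
intersecting types (`Pool/Agent/Lib_helper36/PB/Red.lean`), and their total weight exceeds `2` when
there are at most `14` edges (`Pool/Agent/Lib_helper22/PB/Tot.lean`). A search tree over the Venn
diagrams of up to six types, with a linear-programming certificate (integer
weights) at each node, shows that such weights do not exist; the tree is data checked by the kernel
with a verified checker.
-/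

namespace Pool.Agent.Results.MP_9a3d30_co.MinFifteen

open Pool.Agent.PropB65

/-- **`m(n,4) ≥ 15` for every `n ≥ 4`, and `m(n,4) = 15` for every positive `n` divisible by `8`.**
-/
theorem result :
    (∀ n : ℕ, 4 ≤ n → 15 ≤ m n 4) ∧ ∀ n : ℕ, 0 < n → 8 ∣ n → m n 4 = 15 :=
  Pool.Agent.PB22.value fun n hn F hF hB => Pool.Agent.PB36.fifteen n (by omega) F hF hB

end Pool.Agent.Results.MP_9a3d30_co.MinFifteen
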