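import Pool.Agent.Lib_helper90.PB.Defs
import Pool.Agent.Lib_helper90.PB.Exist

/-!
# MP_9a3d30_co: families without property `B(s)` on at most `2n` vertices

`HasB s F` (property `B(s)`) is defined in `Pool/Agent/Lib_helper65/PropB/Defs.lean`, `IsFam n s F`
(`F` is a family of `n`-sets, the union of its edges has at most `2n` elements, and `F` does not
have property `B(s)`) in `Pool/Agent/Lib_helper90/PB/Defs.lean`.

Let `n ≥ s ≥ 2`.

* Every such family has at least `2^s - 1` edges.
* A family with exactly `2^s - 1` edges exists if and only if `2^(s-1)` divides `n`.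
* It is unique: the vertices can be labelled by the nonzero vectors of `𝔽₂^s`, each vector being
  the label of exactly `n / 2^(s-1)` vertices, such that the edges are exactly the sets
  `{v : y · φ(v) = 1}`, `y ≠ 0`; that is, `F` is the blow-up of the family of the complements of
  the hyperplanes of the projective space `PG(s-1, 2)`.
-/

namespace Pool.Agent.Results.MP_9a3d30_co.TwoNVertices

open Pool.Agent.PB90

/-- **Families without property `B(s)` on at most `2n` vertices**: the least number of edges is at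
least `2^s - 1`, with equality if and only if `2^(s-1)` divides `n`, and then the family is a
blow-up of the family of complements of hyperplanes of `PG(s-1, 2)`. -/
theorem result (n s : ℕ) (hs : 2 ≤ s) (hsn : s ≤ n) :
    (∀ F : Finset (Finset ℕ), IsFam n s F → 2 ^ s - 1 ≤ F.card) ∧
    ((∃ F : Finset (Finset ℕ), IsFam n s F ∧ F.card = 2 ^ s - 1) ↔ 2 ^ (s - 1) ∣ n) ∧
    (∀ F : Finset (Finset ℕ), IsFam n s F → F.card = 2 ^ s - 1 →
      ∃ φ : ℕ → (Fin s → ZMod 2), (∀ v ∈ F.sup id, φ v ≠ 0) ∧
        (∀ x, x ≠ 0 → ((F.sup id).filter fun v => φ v = x).card * 2 ^ (s - 1) = n) ∧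
        ∀ A, A ∈ F ↔ ∃ y : Fin s → ZMod 2, y ≠ 0 ∧
          A = (F.sup id).filter fun v => y ⬝ᵥ φ v = 1) := by
  refine ⟨?_, ⟨?_, ?_⟩, ?_⟩
  · rintro F ⟨h1, h2, h3⟩
    exact (lower hs hsn F h1 h2 h3).1
  · rintro ⟨F, ⟨h1, h2, h3⟩, h4⟩
    exact (lower hs hsn F h1 h2 h3).2 h4
  · intro h
    obtain ⟨F, h1, h2, h3, h4⟩ := exist (by omega) (by omega) h
    exact ⟨F, ⟨h1, h2, h3⟩, h4⟩
  · rintro F ⟨h1, h2, h3⟩ h4
    exact classify hs hsn F h1 h2 h3 h4

end Pool.Agent.Results.MP_9a3d30_co.TwoNVertices
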