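import Pool.Agent.Lib_helper22.PB.UpFin
import Pool.Agent.Lib_helper22.PB.UpGen

/-!
# MP_9a3d30_co: upper bounds for `m(n,s)` for all large `n`

`HasB s F` (property `B(s)`) and `m n s` (the least number of edges of a family of `n`-sets without
property `B(s)`) are defined in `Pool/Agent/Lib_helper65/PropB/Defs.lean`.

* For every `s`, every `j < s` and every `n ≥ 2^(2s-1)` divisible by `2^j`:
  `m(n,s) ≤ 2^s + 2^(s-1-j) - 2`. In particular (`j = 0`) `m(n,s) ≤ 3 * 2^(s-1) - 2` for all
  `n ≥ 2^(2s-1)`.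
* For `s = 4`: `m(n,4) ≤ 22` for all `n ≥ 98`, `m(n,4) ≤ 17` for all even `n ≥ 172`, and
  `m(n,4) ≤ 16` for all `n ≥ 60` divisible by `4`.

The construction: a blow-up of the complements of the hyperplanes of `PG(s-1,2)` with classes of
different sizes; an edge which is too large is replaced by the two `n`-sets obtained by deleting
two disjoint subsets of one class (`split_not` in `Pool/Agent/Lib_helper22/PB/UpGen.lean`). For
even `n` and `s = 4`: the classes are the 16 odd cuts of the complete graph `K_6`, the family has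
an edge for each of the 15 edges of `K_6` and one more edge, formed by the cuts around a vertex,
which is split in two (`Pool/Agent/Lib_helper22/PB/UpData.lean`).
-/

namespace Pool.Agent.Results.MP_9a3d30_co.UpperBounds

open Pool.Agent.PropB65

/-- **upper bounds for `m(n,s)` for all large `n`** -/
theorem result :
    (∀ s j n : ℕ, j < s → 2 ^ (2 * s - 1) ≤ n → 2 ^ j ∣ n →
      m n s ≤ 2 ^ s + 2 ^ (s - 1 - j) - 2) ∧
    (∀ n : ℕ, 98 ≤ n → m n 4 ≤ 22) ∧
    (∀ n : ℕ, 172 ≤ n → 2 ∣ n → m n 4 ≤ 17) ∧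
    (∀ n : ℕ, 60 ≤ n → 4 ∣ n → m n 4 ≤ 16) := by
  refine ⟨fun s j n hj hn hd => ?_, fun n hn => Pool.Agent.PB22U.le22 hn,
    fun n hn hd => Pool.Agent.PB22U.le17 hn hd, fun n hn hd => Pool.Agent.PB22U.le16' hn hd⟩
  have h1 := Pool.Agent.PB22U.gen hj hn hd
  omega

end Pool.Agent.Results.MP_9a3d30_co.UpperBounds
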